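import Pool.Agent.H80.RE.Dd
import Pool.Agent.H12.RS.FaceG
import Pool.Agent.H85.RS.Base

/-!
# H80.RE.FaceN: a nonempty gap `g` with a thin gap `g + c` behind it has `FH ≤ 4`
-/

set_option autoImplicit false
set_option linter.unusedSectionVars false

namespace Pool.Agent.H80.RE

open Finset Pool.Agent.H93.EA Pool.Agent.H69L.TP Pool.Agent.H12.RS Pool.Agent.H85.RS
open Pool.Agent.H85.TK (zs be rel Cb be_gt be_le be_mem be_succ zs_add zs_le zs_succ)

section word

variable {c r : ℕ} {I : Finset ℕ} {w : ℕ → Bool}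

lemma be_end {g : ℕ} (h0 : 0 < g) (hg : g ∉ I) : be I r (g - 1) = g := by
  have h1 := be_gt I r (g - 1)
  by_contra h2
  have h3 : g < be I r (g - 1) := by omega
  exact hg (be_mem (by omega) h3).1

/-- in a block of free lines which ends at `g ≤ c` the marks are natural -/
lemma nat_mem {g : ℕ} (h0 : 0 < g) (hg : g ∉ I) (hgr : g < r) (hgc : g ≤ c)
    (h1 : w (g - 1) = false) (h2 : w (c + (g - 1)) = true) : g - 1 ∈ X c r I w := by
  unfold X
  rw [mem_filter, mem_range]
  refine ⟨by omega, h2, fun _ => h1, ?_⟩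
  unfold th
  rw [if_pos (by omega), be_end h0 hg, rel_lt (by omega) h1]
  omega

/-- beyond the free lines a mark after a nonempty gap has a mark before it -/
lemma back_mem {g : ℕ} (hg : g ∉ I) (hgr : g < r) (hgc : c < g)
    (h1 : w (c + (g - 1)) = true) (h2 : g ∈ X c r I w) : g - 1 ∈ X c r I w := by
  unfold X at h2 ⊢
  rw [mem_filter, mem_range] at h2 ⊢
  refine ⟨by omega, h1, fun h => absurd h (by omega), ?_⟩
  have h3 := h2.2.2.2
  have h4 := th_pos c r I g
  have h5 : rel c w g = 0 := rel_ge (by omega)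
  have h6 : rel c w (g - 1) = 0 := rel_ge (by omega)
  have h7 := sr_succ c r I w (g - 1)
  have e : g - 1 + 1 = g := by omega
  rw [e] at h7
  have h8 : th c r I (g - 1) = 1 := by
    unfold th
    rw [if_neg (by omega), be_end (by omega) hg]
    omega
  rw [h8]
  omega

/-- windows: a window at the start of a block has a window before it -/
lemma win_back {f : ℕ} (h0 : 0 < f) (hf : f < c) (hI : r + f ∉ I) (hw : w (f - 1) = w f)
    (h : f ∈ W c r I w) : f - 1 ∈ W c r I w := by
  have hys : ys r I f = f := by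
    unfold ys
    exact Nat.findGreatest_eq (P := fun y => y = 0 ∨ r + y ∉ I) (Or.inr hI)
  have hye : ye r c I (f - 1) = f := by
    have h1 := ye_gt r c I (f - 1)
    by_contra h2
    exact hI (ye_mem (r := r) (c := c) (I := I) (f := f - 1) (y := f) (by omega) (by omega)).1
  unfold W at h ⊢
  rw [mem_filter, mem_range] at h ⊢
  refine ⟨by omega, ?_⟩
  rw [hye]
  have h2 := h.2
  rw [hys] at h2
  have h3 := ye_gt r c I f
  set y1 := ye r c I f with hy1
  have h4 := zs_add (w := w) (Nat.zero_le f) h3.le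
  have h5 := zs_le w f y1
  have e1 : P c r I w y1 = min (A c r I w) (zs w 0 y1) := rfl
  have e2 : P c r I w f = min (A c r I w) (zs w 0 f) := rfl
  have h6 : zs w f y1 = y1 - f := by omega
  have h7 : w f = false := by
    by_contra h8
    have h9 := Pool.Agent.H85.TK.zs_bot w h3
    rw [if_neg h8] at h9
    have h10 := zs_le w (f + 1) y1
    omega
  have h8 := zs_succ w (a := 0) (b := f - 1) (Nat.zero_le _)
  have e3 : f - 1 + 1 = f := by omega
  rw [e3, if_pos (hw.trans h7)] at h8
  have h9 := ys_le r I (f - 1)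
  set y0 := ys r I (f - 1) with hy0
  have h10 := zs_add (w := w) (Nat.zero_le y0) h9
  have e4 : P c r I w y0 = min (A c r I w) (zs w 0 y0) := rfl
  omega

end word

section cfg

variable {α : Type} [Fintype α] {N : ℕ} {ρ : ℕ → α → ℕ}

open scoped Classical in
lemma wd_ne {m C : ℕ} {τ : ℕ → ℕ} {i j : ℕ} (hi : i < C) (hj : j < C) :
    (univ.filter fun a => ¬ (wd ρ m C τ a i = wd ρ m C τ a j)).card = Dd ρ m (τ i) (τ j) := by
  unfold Dd
  congr 1
  ext a
  simp only [mem_filter, mem_univ, true_and]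
  unfold wd
  rw [decide_eq_decide, and_iff_right hi, and_iff_right hj]

lemma bm_zz_le {c r : ℕ} {I : Finset ℕ} {w : ℕ → Bool} {g : ℕ} (hg : g < c) :
    bm (zz c r w I) g ≤ if ¬ (w g = w (c + g)) then 1 else 0 := by
  by_cases h : g ∈ (zz c r w I).Z
  · rw [bm_of_mem h, if_pos]
    unfold zz at h
    simp only at h
    rw [mem_union] at h
    rcases h with h | h
    · rw [X_own h hg, X_one h]
      simp
    · have h1 := nw_false.1 (X_own h hg)
      have h2 := nw_true.1 (X_one h)
      rw [h1, h2]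
      simp
  · rw [bm_of_not h]
    split_ifs <;> norm_num

lemma le_bm_zz {c r : ℕ} {I : Finset ℕ} {w : ℕ → Bool} {g : ℕ} (h0 : 0 < g) (hg : g ∉ I)
    (hgr : g < r) (hgc : g ≤ c) :
    (if ¬ (w (g - 1) = w (c + (g - 1))) then (1 : ℝ) else 0) ≤ bm (zz c r w I) (g - 1) := by
  by_cases h : w (g - 1) = w (c + (g - 1))
  · rw [if_neg (not_not.2 h)]
    exact bm_nonneg _ _
  · rw [if_pos h, bm_of_mem]
    unfold zz
    simp only
    rw [mem_union]
    cases h1 : w (g - 1)
    · left
      refine nat_mem h0 hg hgr hgc h1 ?_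
      rw [h1] at h
      simpa using h
    · right
      refine nat_mem h0 hg hgr hgc (nw_false.2 h1) (nw_true.2 ?_)
      rw [h1] at h
      simpa using h

/-- free lines: the marks are natural up to `c` -/
theorem faceN_free (h : ASeq N ρ) {m c r : ℕ} (hm : Fintype.card α = 2 * m) (hcr : c < r)
    {τ : ℕ → ℕ} (hτ : Cfg (c + r) N τ) {g : ℕ} (h0 : g ≠ 0) (hgc : g < c)
    (h1 : 1 ≤ gq (c + r) N τ g) (h2 : gq (c + r) N τ (g + c) ≤ 1) :
    FH ρ m c r N τ g ≤ 2 := by
  classical
  have hgI : g ∉ eg (c + r) N τ := by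
    rw [mem_eg hτ (by omega)]
    omega
  set I := eg (c + r) N τ with hI
  have e1 : ∀ a, hf c r (zp ρ m c r N τ a) g ≤
      (if ¬ (wd ρ m (c + r) τ a g = wd ρ m (c + r) τ a (c + g)) then (1 : ℝ) else 0) -
      (if ¬ (wd ρ m (c + r) τ a (g - 1) = wd ρ m (c + r) τ a (c + (g - 1))) then (1 : ℝ) else 0) := by
    intro a
    rw [hf_lt _ h0 (by omega)]
    have a1 := bm_zz_le (c := c) (r := r) (I := I) (w := wd ρ m (c + r) τ a) hgc
    have a2 := le_bm_zz (c := c) (r := r) (I := I) (w := wd ρ m (c + r) τ a) (by omega) hgI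
      (by omega) hgc.le
    unfold zp
    rw [← hI]
    linarith
  unfold FH
  refine (sum_le_sum fun a _ => e1 a).trans ?_
  rw [sum_sub_distrib, sum_boole, sum_boole, wd_ne (by omega) (by omega),
    wd_ne (by omega) (by omega)]
  have h3 := hτ.mono (g - 1) g (Nat.sub_le _ _) (by omega)
  have h4 := hτ.mono g (c + g - 1) (by omega) (by omega)
  have h5 := hτ.mono (c + g - 1) (c + g) (by omega) (by omega)
  have h6 := hτ.le (c + g)
  have e2 : c + (g - 1) = c + g - 1 := by omega
  unfold gq at h2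
  rw [if_neg (by omega), add_comm g c] at h2
  have h7 := Dd_left h hm h3 h4 (hτ.le _)
  have h8 := Dd_thin h (m := m) h5 (by omega) h6
  have h9 := Dd_tri ρ m (τ g) (τ (c + g - 1)) (τ (c + g))
  rw [e2]
  have h10 : (Dd ρ m (τ g) (τ (c + g)) : ℝ) ≤ Dd ρ m (τ (g - 1)) (τ (c + g - 1)) + 2 := by
    exact_mod_cast (by omega)
  linarith

/-- the bases beyond the free lines -/
theorem faceN_base (h : ASeq N ρ) {m c r : ℕ} (hc : 0 < c)
    {τ : ℕ → ℕ} (hτ : Cfg (c + r) N τ) {g : ℕ} (hgc : c < g) (hgr : g < r)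
    (h1 : 1 ≤ gq (c + r) N τ g) (h2 : gq (c + r) N τ (g + c) ≤ 1) :
    FH ρ m c r N τ g ≤ 2 := by
  classical
  have hgI : g ∉ eg (c + r) N τ := by
    rw [mem_eg hτ (by omega)]
    omega
  set I := eg (c + r) N τ with hI
  have e1 : ∀ a, hf c r (zp ρ m c r N τ a) g ≤
      (if ¬ (wd ρ m (c + r) τ a (c + (g - 1)) = wd ρ m (c + r) τ a (c + g)) then (1 : ℝ) else 0) := by
    intro a
    set w := wd ρ m (c + r) τ a with hw
    rw [hf_lt _ (by omega) hgr]
    unfold zp
    rw [← hI, ← hw]
    have b1 := bm_le (zz c r w I) g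
    have b2 := bm_nonneg (zz c r w I) (g - 1)
    by_cases hb : w (c + (g - 1)) = w (c + g)
    · rw [if_neg (not_not.2 hb)]
      by_cases hZ : g ∈ (zz c r w I).Z
      · have hZ' : g - 1 ∈ (zz c r w I).Z := by
          cases h3 : w (c + g)
          · rw [mem_Z_zero h3] at hZ
            rw [mem_Z_zero (hb.trans h3)]
            exact back_mem hgI hgr hgc (nw_true.2 (hb.trans h3)) hZ
          · rw [mem_Z_one h3] at hZ
            rw [mem_Z_one (hb.trans h3)]
            exact back_mem hgI hgr hgc (hb.trans h3) hZ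
        rw [bm_of_mem hZ, bm_of_mem hZ']
        norm_num
      · rw [bm_of_not hZ]
        linarith
    · rw [if_pos hb]
      linarith
  unfold FH
  refine (sum_le_sum fun a _ => e1 a).trans ?_
  rw [sum_boole, wd_ne (by omega) (by omega)]
  have h5 := hτ.mono (c + g - 1) (c + g) (by omega) (by omega)
  have h6 := hτ.le (c + g)
  have e2 : c + (g - 1) = c + g - 1 := by omega
  unfold gq at h2
  rw [if_neg (by omega), add_comm g c] at h2
  have h8 := Dd_thin h (m := m) h5 (by omega) h6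
  rw [e2]
  exact_mod_cast h8

/-- the windows -/
theorem faceN_win (h : ASeq N ρ) {m c r : ℕ}
    {τ : ℕ → ℕ} (hτ : Cfg (c + r) N τ) {f : ℕ} (h0 : 0 < f) (hfc : f < c)
    (h1 : 1 ≤ gq (c + r) N τ (r + f)) (h2 : gq (c + r) N τ f ≤ 1) :
    FH ρ m c r N τ (r + f) ≤ 4 := by
  classical
  have hgI : r + f ∉ eg (c + r) N τ := by
    rw [mem_eg hτ (by omega)]
    omega
  set I := eg (c + r) N τ with hI
  have e1 : ∀ a, hf c r (zp ρ m c r N τ a) (r + f) ≤
      2 * (if ¬ (wd ρ m (c + r) τ a (f - 1) = wd ρ m (c + r) τ a f) then (1 : ℝ) else 0) := by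
    intro a
    set w := wd ρ m (c + r) τ a with hw
    rw [hf_gt _ (by omega)]
    unfold zp
    rw [← hI, ← hw, Nat.add_sub_cancel_left]
    have b1 := wm_le (zz c r w I) f
    have b2 := wm_nonneg (zz c r w I) (f - 1)
    by_cases hb : w (f - 1) = w f
    · rw [if_neg (not_not.2 hb)]
      have k1 : f ∈ (zz c r w I).Wp → f - 1 ∈ (zz c r w I).Wp := by
        intro hh
        refine win_back h0 hfc hgI ?_ hh
        unfold nw
        rw [hb]
      have k2 : f ∈ (zz c r w I).Wm → f - 1 ∈ (zz c r w I).Wm := fun hh => win_back h0 hfc hgI hb hh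
      unfold wm
      have l1 : (if f ∈ (zz c r w I).Wp then (1 : ℝ) else 0) ≤
          if f - 1 ∈ (zz c r w I).Wp then 1 else 0 := by
        by_cases hh : f ∈ (zz c r w I).Wp
        · rw [if_pos hh, if_pos (k1 hh)]
        · rw [if_neg hh]
          split_ifs <;> norm_num
      have l2 : (if f ∈ (zz c r w I).Wm then (1 : ℝ) else 0) ≤
          if f - 1 ∈ (zz c r w I).Wm then 1 else 0 := by
        by_cases hh : f ∈ (zz c r w I).Wm
        · rw [if_pos hh, if_pos (k2 hh)]
        · rw [if_neg hh]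
          split_ifs <;> norm_num
      linarith
    · rw [if_pos hb]
      linarith
  unfold FH
  refine (sum_le_sum fun a _ => e1 a).trans ?_
  rw [← mul_sum, sum_boole, wd_ne (by omega) (by omega)]
  have h5 := hτ.mono (f - 1) f (by omega) (by omega)
  have h6 := hτ.le f
  unfold gq at h2
  rw [if_neg (by omega)] at h2
  have h8 := Dd_thin h (m := m) h5 (by omega) h6
  have h9 : (Dd ρ m (τ (f - 1)) (τ f) : ℝ) ≤ 2 := by exact_mod_cast h8
  linarith

/-- **(N)** a nonempty gap `g ≠ 0, r, c` with a thin gap `g + c` (mod `c + r`) -/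
theorem faceN (h : ASeq N ρ) {m c r : ℕ} (hm : Fintype.card α = 2 * m) (hc : 0 < c) (hcr : c < r)
    {τ : ℕ → ℕ} (hτ : Cfg (c + r) N τ) {g g' : ℕ} (hg : g < c + r) (h0 : g ≠ 0) (hgr : g ≠ r)
    (hgc : g ≠ c) (h1 : 1 ≤ gq (c + r) N τ g) (hg' : g' < c + r)
    (hgg : g' = g + c ∨ g' + (c + r) = g + c) (h2 : gq (c + r) N τ g' ≤ 1) :
    FH ρ m c r N τ g ≤ 4 := by
  rcases hgg with hgg | hgg
  · rw [hgg] at h2
    rcases lt_or_gt_of_ne hgc with h3 | h3
    · exact (faceN_free h hm hcr hτ h0 h3 h1 h2).trans (by norm_num)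
    · exact (faceN_base h hc hτ h3 (by omega) h1 h2).trans (by norm_num)
  · have e : g = r + g' := by omega
    rw [e] at h1 ⊢
    exact faceN_win h hτ (by omega) (by omega) h1 h2

end cfg

end Pool.Agent.H80.RE
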