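import Pool.Agent.H93.EA.Rot

/-!
# H80.RE.Dd: the points with different sides of the halving prefixes at two times
-/

set_option autoImplicit false
set_option linter.unusedSectionVars false

namespace Pool.Agent.H80.RE

open Finset Pool.Agent.H93.EA
open scoped Classical

variable {α : Type} [Fintype α] {N : ℕ} {ρ : ℕ → α → ℕ}

/-- The number of points with different sides at the times `s` and `t`. -/
noncomputable def Dd (ρ : ℕ → α → ℕ) (m s t : ℕ) : ℕ :=
  (univ.filter fun a => ¬ (ρ s a < m ↔ ρ t a < m)).card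

lemma Dd_eq (ρ : ℕ → α → ℕ) (m s t : ℕ) :
    Dd ρ m s t = (pre ρ s m \ pre ρ t m).card + (pre ρ t m \ pre ρ s m).card := by
  unfold Dd
  rw [← card_union_of_disjoint]
  · congr 1
    ext a
    simp only [mem_filter, mem_univ, true_and, mem_union, mem_sdiff, mem_pre]
    tauto
  · rw [disjoint_left]
    intro a ha hb
    rw [mem_sdiff] at ha hb
    exact hb.2 ha.1

lemma Dd_two (h : ASeq N ρ) {m s t : ℕ} (hm : m ≤ Fintype.card α) (hs : s ≤ N) (ht : t ≤ N) :
    Dd ρ m s t = 2 * (pre ρ s m \ pre ρ t m).card := by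
  rw [Dd_eq]
  have h1 := card_sdiff_add_card_inter (pre ρ s m) (pre ρ t m)
  have h2 := card_sdiff_add_card_inter (pre ρ t m) (pre ρ s m)
  rw [inter_comm (pre ρ t m)] at h2
  rw [card_pre h hs hm] at h1
  rw [card_pre h ht hm] at h2
  omega

lemma ext_lt_iff (h : ASeq N ρ) {m : ℕ} (hm : Fintype.card α = 2 * m) {u : ℕ} (hu : u ≤ N) (a : α) :
    (ext N ρ (u + N) a < m ↔ ¬ ρ u a < m) := by
  rw [ext_add h u a hu]
  have := h.lt_card u hu a
  omega

/-- the right end moves to the right -/
lemma Dd_right (h : ASeq N ρ) {m : ℕ} (hm : Fintype.card α = 2 * m) {s t t' : ℕ} (h1 : s ≤ t)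
    (h2 : t ≤ t') (h3 : t' ≤ N) : Dd ρ m s t ≤ Dd ρ m s t' := by
  have hr := rot h (s := s) (by omega)
  have key := swept_mono hr (m := m) (by omega) (s := t - s) (t := t' - s) (by omega) (by omega)
  have e : ∀ u, s ≤ u → u ≤ N → pre (fun t a => ext N ρ (s + t) a) (u - s) m = pre ρ u m := by
    intro u hu hu'
    ext a
    rw [mem_pre, mem_pre, Nat.add_sub_cancel' hu, ext_le hu']
  rw [e t h1 (by omega), e t' (by omega) h3] at key
  have e0 := e s le_rfl (by omega)
  rw [Nat.sub_self] at e0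
  rw [e0] at key
  rw [Dd_two h (by omega) (by omega) (by omega), Dd_two h (by omega) (by omega) h3]
  omega

lemma Dd_symm (ρ : ℕ → α → ℕ) (m s t : ℕ) : Dd ρ m s t = Dd ρ m t s := by
  rw [Dd_eq, Dd_eq, add_comm]

/-- the left end moves to the left -/
lemma Dd_left (h : ASeq N ρ) {m : ℕ} (hm : Fintype.card α = 2 * m) {s s' t : ℕ} (h1 : s ≤ s')
    (h2 : s' ≤ t) (h3 : t ≤ N) : Dd ρ m s' t ≤ Dd ρ m s t := by
  have hr := rot h (s := t) h3
  have key := Dd_right hr hm (s := 0) (t := s + N - t) (t' := s' + N - t) (Nat.zero_le _) (by omega)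
    (by omega)
  have e : ∀ u, u ≤ t → Dd (fun t' a => ext N ρ (t + t') a) m 0 (u + N - t) + Dd ρ m u t =
      Fintype.card α := by
    intro u hu
    unfold Dd
    have e1 : (univ.filter fun a => ¬ (ext N ρ (t + 0) a < m ↔ ext N ρ (t + (u + N - t)) a < m)) =
        univ.filter fun a => ¬ ¬ (ρ u a < m ↔ ρ t a < m) := by
      ext a
      have e2 : t + (u + N - t) = u + N := by omega
      simp only [mem_filter, mem_univ, true_and]
      rw [e2, ext_lt_iff h hm (by omega), Nat.add_zero, ext_le h3]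
      tauto
    rw [e1, add_comm, card_filter_add_card_filter_not, card_univ]
  have e1 := e s (by omega)
  have e2 := e s' h2
  omega

/-- both ends -/
lemma Dd_mono (h : ASeq N ρ) {m : ℕ} (hm : Fintype.card α = 2 * m) {s s' t t' : ℕ} (h1 : s ≤ s')
    (h2 : s' ≤ t') (h3 : t' ≤ t) (h4 : t ≤ N) : Dd ρ m s' t' ≤ Dd ρ m s t :=
  (Dd_left h hm h1 h2 (by omega)).trans (Dd_right h hm (by omega) h3 h4)

/-- the points which change the side in at most one step -/
lemma Dd_thin (h : ASeq N ρ) {m : ℕ} {s t : ℕ} (h1 : s ≤ t) (h2 : t ≤ s + 1)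
    (h3 : t ≤ N) : Dd ρ m s t ≤ 2 := by
  rcases Nat.eq_or_lt_of_le h1 with rfl | h4
  · unfold Dd
    simp
  · have e : t = s + 1 := by omega
    subst e
    have h5 : (univ.filter fun a => ¬ (ρ s a < m ↔ ρ (s + 1) a < m)) ⊆
        (univ.filter fun a => ρ s a = m - 1) ∪ (univ.filter fun a => ρ s a = m) := by
      intro a ha
      simp only [mem_filter, mem_univ, true_and, mem_union] at ha ⊢
      have e1 := h.up s (by omega) a
      have e2 := h.dn s (by omega) a
      omega
    have h6 : ∀ x, (univ.filter fun a => ρ s a = x).card ≤ 1 := by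
      intro x
      rw [card_le_one]
      intro a ha b hb
      rw [mem_filter] at ha hb
      exact h.inj s (by omega) (ha.2.trans hb.2.symm)
    refine (card_le_card h5).trans ((card_union_le _ _).trans ?_)
    have := h6 (m - 1)
    have := h6 m
    omega

lemma Dd_tri (ρ : ℕ → α → ℕ) (m s t u : ℕ) : Dd ρ m s u ≤ Dd ρ m s t + Dd ρ m t u := by
  unfold Dd
  refine le_trans (card_le_card ?_) (card_union_le _ _)
  intro a ha
  simp only [mem_filter, mem_univ, true_and, mem_union] at ha ⊢
  tauto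

lemma Dd_full (h : ASeq N ρ) {m : ℕ} (hm : Fintype.card α = 2 * m) :
    Dd ρ m 0 N = Fintype.card α := by
  unfold Dd
  rw [filter_true_of_mem, card_univ]
  intro a _
  have := rev h a
  omega

end Pool.Agent.H80.RE
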